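import Pool.Agent.H984R3.Per.LowEV
import Pool.Agent.H934R3.D74.Defs
import Pool.Agent.H985R3.TA.Main

/-!
`H934F.St_L` (separated two arms, horizontally) from helper984's gluing theorem `LEV.main`.
-/

set_option autoImplicit false

namespace H934SL

open H974 H934E H934F H984P Finset

/-- A symmetric form of the restricted vertical arms. -/
def RG (a : ℕ) (F : Set Edg) : Prop :=
  (∃ w : Vtx, w.2 = -(12 * a) ∧
    Reach (F ∩ ↑(RE (-(2 * a)) (2 * a) (-(12 * a)) (2 * a))) (0, 0) w) ∧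
  ∃ g : Vtx, g.2 = 12 * a ∧
    DReach ({e | (-(2 * (a:ℤ)) - 1 ≤ (dsrc e).1 ∧ (dsrc e).1 ≤ 2 * a ∧ -(2 * (a:ℤ)) ≤ (dsrc e).2) ∧
      (-(2 * (a:ℤ)) - 1 ≤ (dtgt e).1 ∧ (dtgt e).1 ≤ 2 * a ∧ -(2 * (a:ℤ)) ≤ (dtgt e).2)} \ F)
      (0, 0) g

theorem RG_of {a : ℕ} {F : Finset Edg} (h : LEV.RAg a (0, 0) F) : RG a ↑F := by
  obtain ⟨⟨w, hw, hr⟩, ⟨g, hg, hr'⟩⟩ := h
  refine ⟨⟨w, hw, hr⟩, ⟨g, hg, hr'.mono ?_⟩⟩
  rintro ⟨x, y, _ | _⟩ ⟨h1, h2⟩
  · refine ⟨?_, h2⟩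
    simp only [dE, Set.mem_ofPred_eq, dl_f, mem_RE_true, dsrc_false, dtgt_mk] at h1 ⊢; omega
  · refine ⟨?_, h2⟩
    simp only [dE, Set.mem_ofPred_eq, dl_t, mem_RE_false, dsrc_true, dtgt_mk] at h1 ⊢; omega

theorem RG_of' {a : ℕ} {F : Finset Edg} (h : LEV.RAg a (-1, 0) F) : RG a ↑((rfx 0).mp F) := by
  obtain ⟨⟨w, hw, hr⟩, ⟨g, hg, hr'⟩⟩ := h
  have h1 := (rfx 0).reach hr
  rw [LSym.image_inter, rfx_ψ, rfx_RE] at h1
  have h2 := LEV.dmap_rfx hr'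
  refine ⟨⟨(rfx 0).ψ w, ?_, ?_⟩, ⟨(-1 - g.1, g.2), ?_, ?_⟩⟩
  · obtain ⟨w1, w2⟩ := w
    simp only at hw
    rw [rfx_ψ]
    exact hw
  · have h3 : Reach ((↑((rfx 0).mp F) : Set Edg) ∩
        ↑(RE (0 - 2 * (a:ℤ)) (0 - -(2 * a)) (-(12 * a)) (2 * a))) (0, 0) ((rfx 0).ψ w) := by
      simpa using h1
    refine h3.mono ?_
    rintro ⟨x, y, _ | _⟩ ⟨h4, h5⟩
    · refine ⟨h4, ?_⟩
      simp only [mem_coe, mem_RE_false] at h5 ⊢; omega
    · refine ⟨h4, ?_⟩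
      simp only [mem_coe, mem_RE_true] at h5 ⊢; omega
  · exact hg
  · have h3 : DReach ((rfx 0).φ '' (dE (RE (-(2 * a)) (2 * a) (-(2 * a)) (12 * a)) \ ↑F)) (0, 0)
        (-1 - g.1, g.2) := by
      simpa using h2
    refine h3.mono ?_
    rintro e ⟨⟨x, y, _ | _⟩, ⟨h4, h5⟩, rfl⟩
    · refine ⟨?_, ?_⟩
      · simp only [dE, Set.mem_ofPred_eq, dl_f, mem_RE_true, rfx_φf, dsrc_false,
          dtgt_mk] at h4 ⊢; omega
      · intro h6
        apply h5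
        rw [LSym.coe_mp] at h6
        obtain ⟨e', he', h7⟩ := h6
        have := (rfx 0).φ.injective h7
        rwa [this] at he'
    · refine ⟨?_, ?_⟩
      · simp only [dE, Set.mem_ofPred_eq, dl_t, mem_RE_false, rfx_φt, dsrc_true,
          dtgt_mk] at h4 ⊢; omega
      · intro h6
        apply h5
        rw [LSym.coe_mp] at h6
        obtain ⟨e', he', h7⟩ := h6
        have := (rfx 0).φ.injective h7
        rwa [this] at he'

/-- first passage of the dual path -/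
theorem dual_pass {a m : ℕ} (h1 : 2 * a + 1 ≤ m) (h2 : 3 * m ≤ 12 * a) (hm : 1 ≤ m) {F : Set Edg}
    {g : Vtx} (hg : g.1 = 12 * a)
    (h : DReach ({e | (-(2 * (a:ℤ)) - 1 ≤ (dsrc e).2 ∧ (dsrc e).2 ≤ 2 * a ∧
        -(2 * (a:ℤ)) ≤ (dsrc e).1) ∧
      (-(2 * (a:ℤ)) - 1 ≤ (dtgt e).2 ∧ (dtgt e).2 ≤ 2 * a ∧ -(2 * (a:ℤ)) ≤ (dtgt e).1)} \ F)
      (0, 0) g) :
    ∃ g' : Vtx, g'.1 = 3 * (m:ℤ) ∧
      DReach (↑(RE (-(m:ℤ)) (3 * m) (-(m:ℤ)) m) \ F) (0, 0) g' := by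
  have key : ∀ w : Vtx, DReach ({e | (-(2 * (a:ℤ)) - 1 ≤ (dsrc e).2 ∧ (dsrc e).2 ≤ 2 * a ∧
        -(2 * (a:ℤ)) ≤ (dsrc e).1) ∧
      (-(2 * (a:ℤ)) - 1 ≤ (dtgt e).2 ∧ (dtgt e).2 ≤ 2 * a ∧ -(2 * (a:ℤ)) ≤ (dtgt e).1)} \ F)
      (0, 0) w → (∃ g' : Vtx, g'.1 = 3 * (m:ℤ) ∧
        DReach (↑(RE (-(m:ℤ)) (3 * m) (-(m:ℤ)) m) \ F) (0, 0) g') ∨
      (w.1 < 3 * (m:ℤ) ∧ DReach (↑(RE (-(m:ℤ)) (3 * m) (-(m:ℤ)) m) \ F) (0, 0) w) := by
    intro w hw
    induction hw with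
    | refl => exact Or.inr ⟨by simp only; omega, DReach.refl _ _⟩
    | @tail b c hb hs ih =>
      rcases ih with ih | ⟨ih1, ih2⟩
      · exact Or.inl ih
      · obtain ⟨⟨x, y, t⟩, ⟨he1, he2⟩, hc⟩ := hs
        have hstep : c.1 ≤ b.1 + 1 ∧ ((x, y, t) : Edg) ∈ RE (-(m:ℤ)) (3 * m) (-(m:ℤ)) m := by
          obtain ⟨b1, b2⟩ := b
          obtain ⟨c1, c2⟩ := c
          cases t with
          | false =>
            simp only [dsrc_false, dtgt_mk, Set.mem_ofPred_eq, Prod.mk.injEq] at he1 hc ih1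
            rw [mem_RE_false]
            rcases hc with ⟨⟨h5, h6⟩, h7, h8⟩ | ⟨⟨h5, h6⟩, h7, h8⟩ <;>
              (refine ⟨?_, ?_⟩ <;> omega)
          | true =>
            simp only [dsrc_true, dtgt_mk, Set.mem_ofPred_eq, Prod.mk.injEq] at he1 hc ih1
            rw [mem_RE_true]
            rcases hc with ⟨⟨h5, h6⟩, h7, h8⟩ | ⟨⟨h5, h6⟩, h7, h8⟩ <;>
              (refine ⟨?_, ?_⟩ <;> omega)
        have hr : DReach (↑(RE (-(m:ℤ)) (3 * m) (-(m:ℤ)) m) \ F) (0, 0) c :=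
          ih2.trans (DAdj.reach ⟨(x, y, t), ⟨hstep.2, he2⟩, hc⟩)
        by_cases hc3 : c.1 = 3 * (m:ℤ)
        · exact Or.inl ⟨c, hc3, hr⟩
        · exact Or.inr ⟨by omega, hr⟩
  rcases key g h with h3 | ⟨h3, -⟩
  · exact h3
  · exfalso
    omega

theorem sep_of_RG {a m : ℕ} (h1 : 2 * a + 1 ≤ m) (h2 : 3 * m ≤ 12 * a) (hm : 1 ≤ m)
    {F : Finset Edg} (h : RG a ↑F) : SepArms (true, true) m (tps.mp F) := by
  obtain ⟨⟨w, hw, hr⟩, ⟨g, hg, hr'⟩⟩ := h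
  constructor
  · have h3 := tps.reach hr
    rw [LSym.image_inter, tps_RE, tps_ψ] at h3
    have h4 : (tps.ψ w).1 ≤ -(3 * (m:ℤ)) := by
      obtain ⟨w1, w2⟩ := w
      simp only at hw
      rw [tps_ψ]
      simp only
      omega
    obtain ⟨z, hz1, hz2, hz3⟩ := first_exit (a := -(3 * (m:ℤ))) (b := m) (c := -(m:ℤ)) (d := m)
      (u := (0, 0)) (by unfold inR; simp only; omega) h3 (Or.inl h4)
    have hz4 : Reach ((↑(tps.mp F) : Set Edg) ∩
        ↑(RE (-(12 * (a:ℤ))) (2 * a) (-(2 * a)) (2 * a))) (0, 0) z :=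
      hz3.mono Set.inter_subset_left
    have hz5 : z = (0, 0) ∨ (z.1 ≤ 2 * (a:ℤ) ∧ -(2 * (a:ℤ)) ≤ z.2 ∧ z.2 ≤ 2 * a) := by
      rcases Relation.ReflTransGen.cases_tail hz4 with h5 | ⟨v, -, ⟨x, y, t⟩, ⟨he1, he2⟩, hc⟩
      · exact Or.inl (h5)
      · right
        obtain ⟨z1, z2⟩ := z
        obtain ⟨v1, v2⟩ := v
        cases t with
        | false =>
          simp only [mem_coe, mem_RE_false] at he2
          simp only [src_mk, tgt_false, Prod.mk.injEq] at hc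
          simp only
          omega
        | true =>
          simp only [mem_coe, mem_RE_true] at he2
          simp only [src_mk, tgt_true, Prod.mk.injEq] at hc
          simp only
          omega
    refine ⟨z, ?_, hz3.mono ?_⟩
    · push_cast
      rcases hz5 with rfl | hz5
      · exfalso
        simp only at hz2
        omega
      · omega
    · rintro e ⟨⟨h5, -⟩, h6⟩
      refine ⟨h5, ?_⟩
      push_cast
      exact h6
  · have h3 := DReach_tps hr'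
    rw [tps_ψ, Set.image_sdiff tps.φ.injective, ← LSym.coe_mp] at h3
    obtain ⟨g', hg1, hg2⟩ := dual_pass h1 h2 hm (g := tps.ψ g) (F := ↑(tps.mp F)) (by
        obtain ⟨g1, g2⟩ := g
        simpa using hg) (h3.mono (by
        rintro e ⟨⟨⟨x, y, t⟩, he1, rfl⟩, he2⟩
        refine ⟨?_, he2⟩
        cases t with
        | false =>
          simp only [Set.mem_ofPred_eq, dsrc_false, dtgt_mk, tps_φ, Bool.not_false,
            dsrc_true] at he1 ⊢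
          omega
        | true =>
          simp only [Set.mem_ofPred_eq, dsrc_true, dtgt_mk, tps_φ, Bool.not_true,
            dsrc_false] at he1 ⊢
          omega))
    refine ⟨g', ?_, ?_⟩
    · push_cast
      exact hg1
    · have e : cface (0, 0) (true, true) = (0, 0) := rfl
      rw [e]
      refine hg2.mono ?_
      rintro e' ⟨h5, h6⟩
      rw [Finset.coe_sdiff]
      refine ⟨?_, h6⟩
      push_cast
      exact h5

theorem sep_local {m : ℕ} (F : Finset Edg) : SepArms (true, true) m F ↔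
    SepArms (true, true) m (F ∩ RE (-(3 * m : ℕ)) (3 * m : ℕ) (-(m : ℕ)) (m : ℕ)) := by
  unfold SepArms
  have e1 : ((↑F : Set Edg) ∩ ↑(RE (-(3 * m : ℕ)) (m : ℕ) (-(m : ℕ)) (m : ℕ))) =
      ↑(F ∩ RE (-(3 * m : ℕ)) (3 * m : ℕ) (-(m : ℕ)) (m : ℕ)) ∩
        ↑(RE (-(3 * m : ℕ)) (m : ℕ) (-(m : ℕ)) (m : ℕ)) := by
    ext ⟨x, y, _ | _⟩
    · simp only [Set.mem_inter_iff, mem_coe, mem_inter, mem_RE_false]
      constructor
      · rintro ⟨h1, h2⟩
        refine ⟨⟨h1, ?_⟩, h2⟩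
        push_cast at h2 ⊢
        omega
      · rintro ⟨⟨h1, -⟩, h2⟩
        exact ⟨h1, h2⟩
    · simp only [Set.mem_inter_iff, mem_coe, mem_inter, mem_RE_true]
      constructor
      · rintro ⟨h1, h2⟩
        refine ⟨⟨h1, ?_⟩, h2⟩
        push_cast at h2 ⊢
        omega
      · rintro ⟨⟨h1, -⟩, h2⟩
        exact ⟨h1, h2⟩
  have e2 : RE (-(m : ℕ)) (3 * m : ℕ) (-(m : ℕ)) (m : ℕ) \ F =
      RE (-(m : ℕ)) (3 * m : ℕ) (-(m : ℕ)) (m : ℕ) \
        (F ∩ RE (-(3 * m : ℕ)) (3 * m : ℕ) (-(m : ℕ)) (m : ℕ)) := by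
    ext ⟨x, y, _ | _⟩
    · simp only [mem_sdiff, mem_inter, mem_RE_false]
      constructor
      · rintro ⟨h1, h2⟩
        exact ⟨h1, fun h => h2 h.1⟩
      · rintro ⟨h1, h2⟩
        refine ⟨h1, fun h => h2 ⟨h, ?_⟩⟩
        push_cast at h1 ⊢
        omega
    · simp only [mem_sdiff, mem_inter, mem_RE_true]
      constructor
      · rintro ⟨h1, h2⟩
        exact ⟨h1, fun h => h2 h.1⟩
      · rintro ⟨h1, h2⟩
        refine ⟨h1, fun h => h2 ⟨h, ?_⟩⟩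
        push_cast at h1 ⊢
        omega
  rw [← e1, ← e2]

theorem tps_S0 (a : ℕ) : tps.mp (LEV.S0 a) = LEV.S0 a := by
  unfold LEV.S0
  rw [tps_RE]

theorem pr_S0 {a m : ℕ} (h1 : 2 * a + 1 ≤ m) (h2 : 3 * m ≤ 12 * a) (hm : 1 ≤ m) :
    Pr (fun _ => (1/2:ℝ)) (LEV.S0 a) (fun F => RG a ↑F) ≤
      Pr (fun _ => (1/2:ℝ)) (RE (-(3 * m : ℕ)) (3 * m : ℕ) (-(m : ℕ)) (m : ℕ))
        (SepArms (true, true) m) := by
  have hsub : RE (-(3 * m : ℕ)) (3 * m : ℕ) (-(m : ℕ)) (m : ℕ) ⊆ LEV.S0 a := by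
    unfold LEV.S0
    rintro ⟨x, y, _ | _⟩ h
    · rw [mem_RE_false] at h ⊢; push_cast at h ⊢; omega
    · rw [mem_RE_true] at h ⊢; push_cast at h ⊢; omega
  rw [← Pr_local hsub (fun F _ => sep_local F)]
  have e := LSym.pr tps (1/2) (LEV.S0 a) (SepArms (true, true) m)
  rw [tps_S0] at e
  rw [e]
  exact Pr_mono LEV.okh fun F _ hF => sep_of_RG h1 h2 hm hF

theorem sep_single (m : ℕ) (hm : 1 ≤ m) : SepArms (true, true) m (RE (-(3 * m : ℕ)) 0 0 0) := by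
  refine ⟨⟨(-(3 * m : ℕ), 0), rfl, ?_⟩, ⟨((3 * m : ℕ), 0), rfl, ?_⟩⟩
  · have : ∀ n : ℕ, n ≤ 3 * m → Reach (↑(RE (-(3 * m : ℕ)) 0 0 0) ∩
        ↑(RE (-(3 * m : ℕ)) (m : ℕ) (-(m : ℕ)) (m : ℕ))) (0, 0) (-(n:ℤ), 0) := by
      intro n
      induction n with
      | zero => intro _; simpa using Reach.refl _ _
      | succ n ih =>
        intro hn
        refine (ih (by omega)).trans (Adj.reach ⟨(-((n:ℤ) + 1), 0, true), ⟨?_, ?_⟩, Or.inr ⟨?_, ?_⟩⟩)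
        · rw [mem_coe, mem_RE_true]; refine ⟨?_, ?_, le_rfl, le_rfl⟩ <;> push_cast <;> omega
        · rw [mem_coe, mem_RE_true]; refine ⟨?_, ?_, ?_, ?_⟩ <;> push_cast <;> omega
        · simp
        · simp
    have h := this (3 * m) le_rfl
    exact h
  · have e : cface (0, 0) (true, true) = (0, 0) := rfl
    rw [e]
    have : ∀ n : ℕ, n ≤ 3 * m → DReach (↑(RE (-(m : ℕ)) (3 * m : ℕ) (-(m : ℕ)) (m : ℕ) \
        RE (-(3 * m : ℕ)) 0 0 0) : Set Edg) (0, 0) ((n:ℤ), 0) := by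
      intro n
      induction n with
      | zero => intro _; simpa using DReach.refl _ _
      | succ n ih =>
        intro hn
        refine (ih (by omega)).trans (DAdj.reach ⟨((n:ℤ) + 1, 0, false), ?_, Or.inl ⟨?_, ?_⟩⟩)
        · rw [mem_coe, mem_sdiff, mem_RE_false, mem_RE_false]; push_cast; omega
        · simp
        · simp
    exact this (3 * m) le_rfl

theorem st_L : H934F.St_L := by
  obtain ⟨B, m0, κ, hκ, hEV⟩ := H985T.EV_lower
  obtain ⟨δ, hδ, hmain⟩ := LEV.main B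
  set M := max 4 (2 * m0 + 2) with hM
  set Sm : ℕ → Finset Edg := fun m => RE (-(3 * m : ℕ)) (3 * m : ℕ) (-(m : ℕ)) (m : ℕ) with hSm
  refine ⟨min (κ * δ) ((1/2:ℝ)^(Sm M).card), (true, true), lt_min (mul_pos hκ hδ) (by positivity),
    ?_⟩
  intro m hm
  have hm1 : (1:ℝ) ≤ m := by exact_mod_cast hm
  have hpow0 : 0 ≤ (m:ℝ) ^ (-(1/4) : ℝ) := Real.rpow_nonneg (by linarith) _
  rcases Nat.lt_or_ge m M with hlt | hge
  · have hpow1 : (m:ℝ) ^ (-(1/4) : ℝ) ≤ 1 :=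
      Real.rpow_le_one_of_one_le_of_nonpos hm1 (by norm_num)
    have hcard : (Sm m).card ≤ (Sm M).card := by
      apply card_le_card
      simp only [hSm]
      rintro ⟨x, y, _ | _⟩ h
      · rw [mem_RE_false] at h ⊢; push_cast at h ⊢; omega
      · rw [mem_RE_true] at h ⊢; push_cast at h ⊢; omega
    calc min (κ * δ) ((1/2:ℝ)^(Sm M).card) * (m:ℝ) ^ (-(1/4) : ℝ)
        ≤ (1/2:ℝ)^(Sm M).card * 1 :=
          mul_le_mul (min_le_right _ _) hpow1 hpow0 (by positivity)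
      _ ≤ (1/2:ℝ)^(Sm m).card := by
          rw [mul_one]
          exact pow_le_pow_of_le_one (by norm_num) (by norm_num) hcard
      _ ≤ _ := by
          apply LEV.pr_ge_single (F0 := RE (-(3 * m : ℕ)) 0 0 0)
          · simp only [hSm]
            rintro ⟨x, y, _ | _⟩ h
            · rw [mem_RE_false] at h ⊢; push_cast at h ⊢; omega
            · rw [mem_RE_true] at h ⊢; push_cast at h ⊢; omega
          · exact sep_single m hm
  · set a := (m - 1) / 2 with ha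
    have ha0 : m0 ≤ a := by omega
    have ha1 : 1 ≤ a := by omega
    have h1 : 2 * a + 1 ≤ m := by omega
    have h2 : 3 * m ≤ 12 * a := by omega
    have ham : (a:ℝ) ≤ m := by
      have : a ≤ m := by omega
      exact_mod_cast this
    have ha1' : (1:ℝ) ≤ a := by exact_mod_cast ha1
    obtain ⟨ρ, c, sd, c', f0, hgeo, hf0, hpr⟩ := hEV a ha0
    calc min (κ * δ) ((1/2:ℝ)^(Sm M).card) * (m:ℝ) ^ (-(1/4) : ℝ)
        ≤ (κ * δ) * (m:ℝ) ^ (-(1/4) : ℝ) := mul_le_mul_of_nonneg_right (min_le_left _ _) hpow0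
      _ ≤ (κ * δ) * (a:ℝ) ^ (-(1/4) : ℝ) := by
          refine mul_le_mul_of_nonneg_left ?_ (by positivity)
          exact Real.rpow_le_rpow_of_nonpos (by linarith) ham (by norm_num)
      _ = (κ * (a:ℝ) ^ (-(1/4 : ℝ))) * δ := by ring
      _ ≤ Pr (fun _ => (1/2:ℝ)) (H985T.EU a ρ c sd c') (H985T.EV a ρ c sd c' (f0, f0)) * δ :=
          mul_le_mul_of_nonneg_right hpr hδ.le
      _ ≤ Pr (fun _ => (1/2:ℝ)) (LEV.S0 a) (fun F => RG a ↑F) := by
          rcases hf0 with rfl | rfl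
          · refine (hmain hgeo (by norm_num) (by norm_num)).trans ?_
            exact Pr_mono LEV.okh fun F _ hF => RG_of hF
          · obtain ⟨s', c'', hg', hle⟩ := LEV.refl_EV hgeo
            refine (mul_le_mul_of_nonneg_right hle hδ.le).trans ?_
            refine (hmain hg' (by norm_num) (by norm_num)).trans ?_
            have e := LSym.pr (rfx 0) (1/2) (LEV.S0 a) (fun F => RG a (↑F : Set Edg))
            rw [LEV.rfx_S0] at e
            rw [e]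
            exact Pr_mono LEV.okh fun F _ hF => RG_of' hF
      _ ≤ _ := pr_S0 h1 h2 hm

end H934SL
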